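import Pool.Agent.H68.GHY.Targets

/-!
Row SQD of ghy_modules: the square of the Dirichlet polynomial.
-/

set_option autoImplicit false

namespace Pool.Agent.H36.GHY

open Finset Pool.Agent.H68.GHY

theorem pf_SQD : T_SQD := by
  intro m lam a y t hy hC
  classical
  obtain ⟨f, hf⟩ : ∃ f : ℕ → ℂ, f = fun n : ℕ =>
      tl m lam a n * (n : ℂ) ^ (-((t : ℂ) * Complex.I)) := ⟨_, rfl⟩
  obtain ⟨g, hg⟩ : ∃ g : ℕ × ℕ → ℂ, g = fun p : ℕ × ℕ => f p.1 * f p.2 := ⟨_, rfl⟩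
  have hy0 : (0 : ℝ) ≤ y := by linarith
  -- the support
  have hsupp : ∀ n : ℕ, f n ≠ 0 → n ∈ Icc 1 ⌊y⌋₊ := by
    intro n hn
    have h1 : a n ≠ 0 := by
      intro h
      apply hn
      rw [hf]
      simp only [tl, h, zero_mul]
    obtain ⟨h2, h3⟩ := hC.supp n h1
    rw [mem_Icc]
    refine ⟨?_, Nat.le_floor h3⟩
    have h4 : (0 : ℝ) < n := by linarith
    have h5 : 0 < n := by exact_mod_cast h4
    exact h5
  have hDP : DP m lam a y t = ∑ n ∈ Icc 1 ⌊y⌋₊, f n := by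
    rw [hf]
    rfl
  have hsq : DP m lam a y t ^ 2 = ∑ p ∈ Icc 1 ⌊y⌋₊ ×ˢ Icc 1 ⌊y⌋₊, g p := by
    rw [hDP, sq, sum_mul_sum, ← sum_product', hg]
  obtain ⟨K, hK⟩ : ∃ K : ℕ, K = ⌊y ^ 2⌋₊ := ⟨_, rfl⟩
  obtain ⟨s, hs⟩ : ∃ s : Finset (ℕ × ℕ), s = ((range (K + 1)) ×ˢ (range (K + 1))).filter
      fun p => p.1 * p.2 ∈ Icc 1 K := ⟨_, rfl⟩
  -- the fibres
  have hfib : ∀ k ∈ Icc 1 K, s.filter (fun p => p.1 * p.2 = k) = k.divisorsAntidiagonal := by
    intro k hk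
    have hk' := mem_Icc.1 hk
    ext p
    rw [hs, mem_filter, mem_filter, mem_product, mem_range, mem_range, Nat.mem_divisorsAntidiagonal]
    constructor
    · rintro ⟨_, h⟩
      exact ⟨h, by omega⟩
    · rintro ⟨h, _⟩
      refine ⟨⟨⟨?_, ?_⟩, by rw [h]; exact hk⟩, h⟩
      · have h1 : p.1 ∣ k := ⟨p.2, h.symm⟩
        have := Nat.le_of_dvd (by omega) h1
        omega
      · have h1 : p.2 ∣ k := ⟨p.1, by rw [mul_comm]; exact h.symm⟩
        have := Nat.le_of_dvd (by omega) h1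
        omega
  have h1 : ∑ k ∈ Icc 1 K, bq m lam a k * (k : ℂ) ^ (-((t : ℂ) * Complex.I)) =
      ∑ k ∈ Icc 1 K, ∑ p ∈ s.filter (fun p => p.1 * p.2 = k), g p := by
    refine sum_congr rfl fun k hk => ?_
    rw [hfib k hk]
    unfold bq
    rw [sum_mul]
    refine sum_congr rfl fun p hp => ?_
    have hp1 := (Nat.mem_divisorsAntidiagonal.1 hp).1
    rw [hg, hf]
    simp only
    rw [← hp1, Nat.cast_mul, Complex.natCast_mul_natCast_cpow]
    ring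
  have h2 : ∑ k ∈ Icc 1 K, ∑ p ∈ s.filter (fun p => p.1 * p.2 = k), g p = ∑ p ∈ s, g p := by
    refine sum_fiberwise_of_maps_to (fun p hp => ?_) _
    rw [hs] at hp
    exact (mem_filter.1 hp).2
  have h3 : ∑ p ∈ Icc 1 ⌊y⌋₊ ×ˢ Icc 1 ⌊y⌋₊, g p = ∑ p ∈ s, g p := by
    refine sum_subset ?_ ?_
    · intro p hp
      obtain ⟨hp1, hp2⟩ := mem_product.1 hp
      have hp1' := mem_Icc.1 hp1
      have hp2' := mem_Icc.1 hp2
      have h4 : (p.1 : ℝ) ≤ y := (Nat.cast_le.2 hp1'.2).trans (Nat.floor_le hy0)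
      have h5 : (p.2 : ℝ) ≤ y := (Nat.cast_le.2 hp2'.2).trans (Nat.floor_le hy0)
      have h6 : p.1 * p.2 ≤ K := by
        rw [hK]
        refine Nat.le_floor ?_
        push_cast
        rw [sq]
        exact mul_le_mul h4 h5 (Nat.cast_nonneg _) hy0
      have h7 : p.1 ≤ p.1 * p.2 := Nat.le_mul_of_pos_right _ hp2'.1
      have h8 : p.2 ≤ p.1 * p.2 := Nat.le_mul_of_pos_left _ hp1'.1
      have h9 : 1 ≤ p.1 * p.2 := le_trans hp1'.1 h7
      rw [hs, mem_filter, mem_product, mem_range, mem_range, mem_Icc]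
      exact ⟨⟨by omega, by omega⟩, h9, h6⟩
    · intro p _ hp
      rw [hg]
      by_contra hne
      have h4 : f p.1 ≠ 0 := left_ne_zero_of_mul hne
      have h5 : f p.2 ≠ 0 := right_ne_zero_of_mul hne
      exact hp (mem_product.2 ⟨hsupp _ h4, hsupp _ h5⟩)
  rw [hsq, h3, ← h2, ← h1, hK]

end Pool.Agent.H36.GHY
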